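import Pool.Agent.H442R2.BX.Defs
import Pool.Agent.W23.DC.Defs

/-!
RV project (helper21), problem MP_b454d1_nt: definitions and statements.

`N - p` for `p` in an arbitrary dense set of primes up to `X` and all but boundedly many `|N| ≤ X²`.
The chain BX (level below `1/2`, where no exponential sums are needed) for residues up to `N²`, and
the weighted linear sieve of the DC project with five prime factors.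
-/

set_option autoImplicit false

namespace Pool.Agent.W21.RV

open Finset
open Pool.Agent.H442R2
open Pool.Agent.H442R2.KF
open Pool.Agent.W23.DC

/-! ## Part 1: the Bessel inequality for residues up to `N²` -/

/-- **RC** (theorem `RC : St_RC`).  As `BX.RC` (`BX/Rc.lean`, `TaskRC.rr_card` can be imported) with
`|m| ≤ N² B`: `k ε log N ≤ 2 log N + log B`, so the constant is `exp(2/ε)`. -/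
def St_RC : Prop := ∀ ε : ℝ, 0 < ε → ∃ (N₀ : ℕ) (C : ℝ), 0 < C ∧ ∀ (N X : ℕ), N₀ ≤ N →
    ∀ (m : ℤ) (B : ℝ), m ≠ 0 → 1 ≤ B → |(m : ℝ)| ≤ (N : ℝ) ^ 2 * B →
    ((BX.rd ((N : ℝ) ^ ε) X m).card : ℝ) ≤ C * B ^ (1 / 4 : ℝ)

/-- **PB** (theorem `PB (hRC : St_RC) (hRA : BX.St_RA) : St_PB`).  As `BX.PB` (`BX/Pb.lean`). -/
def St_PB : Prop := ∀ ε : ℝ, 0 < ε → ∃ (N₀ : ℕ) (C : ℝ), 0 < C ∧ ∀ (N X : ℕ), N₀ ≤ N → X ≤ N →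
    ∀ (c : ℕ → ℝ), BX.CofR ((N : ℝ) ^ ε) X c → ∀ (a n : ℤ) (B : ℝ), 1 ≤ B →
    |((n - a : ℤ) : ℝ)| ≤ (N : ℝ) ^ 2 * B →
    |BX.rf c X a n| ≤ C * B ^ (1 / 4 : ℝ)

/-- **NC** (theorem `NC (hRC : St_RC) (hGS : BX.St_GS) : St_NC`).  As `BX.NC` (`BX/Nc.lean`); take
`Ls = (rd y X (a' - a)).filter Nat.Prime` (`l ∣ d ≤ X`); RC with `m = a' - a`, `B = 2` for the
numbers of rough divisors of `a' - a` (`|a' - a| ≤ 2 N²`) and with `m = n - a`,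
`B = 1 + |n|/N` otherwise (`|n - a| ≤ |n| + N² ≤ N² (1 + |n|/N)`). -/
def St_NC : Prop := ∀ ε : ℝ, 0 < ε → ∃ C : ℝ, 0 < C ∧ ∀ (N q X : ℕ), 2 ≤ N → 1 ≤ q → X ≤ N →
    ∀ (a a' : ℤ), |(a : ℝ)| ≤ (N : ℝ) ^ 2 → |(a' : ℝ)| ≤ (N : ℝ) ^ 2 → a ≠ a' →
    ∑ d ∈ BX.roughs ((N : ℝ) ^ ε) X,
      ∑ d' ∈ (BX.roughs ((N : ℝ) ^ ε) X).filter (fun d' => ¬ Nat.Coprime d d'),
        BX.SE N a a' q d d' ≤ C * ((N : ℝ) ^ (1 - ε) + X)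

/-- **CO** (theorem `CO (hSV : BX.St_SV) : St_CO`).  Below `1/2`: `SV` with `J = 0` (compare
`BX/Sm.lean`), termwise.  Take `ε₀ = min 1 ((1 - 2θ)/4)`, `η = 1`... (any `0 < η ≤ 1`); for
`N ≥ N₀`: `q d d' log N ≤ N^(ε₀ + 2θ) log N ≤ N`, the only term `j = 0` is `1`, so every bracket is
`≤ N^(-5)`, and there are `≤ X² ≤ N²` pairs.  `c d ≠ 0` gives `Nat.Coprime q d` (`CofO.cop`).  Small
`N`: `0 ≤ SE ≤ ∑ W ≤ 4 (N + 1)`, absorb in `C` (as in `BX/Co.lean`, `TaskCO.triv`). -/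
def St_CO : Prop := ∀ θ : ℝ, θ < 1 / 2 → ∃ (ε₀ η C : ℝ), 0 < ε₀ ∧ 0 < η ∧ 0 < C ∧
    ∀ (N q D0 X : ℕ), 2 ≤ N → 1 ≤ q → Odd q → (q : ℝ) ≤ (N : ℝ) ^ ε₀ → (X : ℝ) ≤ (N : ℝ) ^ θ →
    1 ≤ D0 → (X : ℝ) ≤ (N : ℝ) ^ ε₀ * D0 →
    ∀ (a a' : ℤ), a ≠ a' →
    ∀ c c' : ℕ → ℝ, BX.CofO q c → BX.CofO q c' →
    |∑ d ∈ Ioc D0 X, ∑ d' ∈ (Ioc D0 X).filter (fun d' => Nat.Coprime d d'), c d * c' d' *
      (BX.SE N a a' q d d' - N / (q * d * d'))| ≤ C * (N : ℝ) ^ (1 - η)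

/-- **DI** (theorem `DI (hPB : St_PB) (hGS : BX.St_GS) (hGW : BX.St_GW) : St_DI`).  As `BX.DI`
(`BX/Di.lean`), `B = 1 + |n|/N` in PB. -/
def St_DI : Prop := ∀ ε : ℝ, 0 < ε → ∃ (N₀ : ℕ) (C : ℝ), 0 < C ∧ ∀ (N z X : ℕ), N₀ ≤ N → X ≤ N →
    2 ≤ z → (z : ℝ) ≤ (N : ℝ) ^ (1 / 4 : ℝ) → ∀ lam : ℕ → ℝ, BX.SW z lam →
    ∀ c : ℕ → ℝ, BX.CofR ((N : ℝ) ^ ε) X c → ∀ a : ℤ, |(a : ℝ)| ≤ (N : ℝ) ^ 2 →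
    ∑' n : ℤ, Wt N n * BX.nuS lam z n * (BX.rf c X a n * BX.rf c X a n) ≤ C * N / Real.log z

/-- **TT** (theorem `TT (hCO : St_CO) (hSM : BX.St_SM) (hEX : BX.St_EX) (hNC : St_NC)
(hRB : BX.St_RB) (hPB : St_PB) : St_TT`).  As `BX.TT` (`BX/Tt.lean`; its auxiliary lemmas
`TaskTT.one_q`, `two_pts`, `triv`, ... can be imported); in `hval` use PB with `B = 2`
(`|a - a'| ≤ 2 N²`). -/
def St_TT : Prop := ∀ θ ε : ℝ, θ < 1 / 2 → 0 < ε → ∃ (ε₀ η C : ℝ), 0 < ε₀ ∧ 0 < η ∧ 0 < C ∧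
    ∀ (N z D0 X : ℕ), 2 ≤ N → 1 ≤ z → (z : ℝ) ≤ (N : ℝ) ^ ε₀ → (X : ℝ) ≤ (N : ℝ) ^ θ → 1 ≤ D0 →
    (X : ℝ) ≤ (N : ℝ) ^ ε₀ * D0 → ∀ lam : ℕ → ℝ, BX.SW z lam →
    ∀ c c' : ℕ → ℝ, BX.CofR ((N : ℝ) ^ ε) X c → BX.CofR ((N : ℝ) ^ ε) X c' →
    (∀ d, c d ≠ 0 → D0 < d) → (∀ d, c' d ≠ 0 → D0 < d) →
    ∀ (a a' : ℤ), |(a : ℝ)| ≤ (N : ℝ) ^ 2 → |(a' : ℝ)| ≤ (N : ℝ) ^ 2 → a ≠ a' →
    |∑' n : ℤ, Wt N n * BX.nuS lam z n * (BX.rf c X a n * BX.rf c' X a' n)| ≤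
      C * (N : ℝ) ^ (1 - η)

/-- **PR** (theorem `PR (hPB : St_PB) (hRT : BX.St_RT) : St_PR`).  As `BX.PR` (`BX/Pr.lean`), `B = 2`
in PB. -/
def St_PR : Prop := ∀ ε : ℝ, 0 < ε → ∃ (N₀ : ℕ) (C : ℝ), 0 < C ∧ ∀ (N z X : ℕ), N₀ ≤ N → X ≤ N →
    ∀ f : ℕ → ℝ, (∀ p, |f p| ≤ 1) → ∀ a : ℤ, |(a : ℝ)| ≤ (N : ℝ) ^ 2 →
    ∀ T : Finset ℕ, (∀ d ∈ T, d ≤ X ∧ BX.Rough ((N : ℝ) ^ ε) d) →
    ∃ c : ℕ → ℝ, BX.CofR ((N : ℝ) ^ ε) X c ∧ (∀ d, c d ≠ 0 → d ∈ T) ∧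
      ∑ d ∈ T, |BX.Df f N a d| ≤
        |∑ p ∈ (Icc 1 N).filter (fun p => p.Prime ∧ z < p), f p * BX.rf c X a p| +
          C * (z + X + (N : ℝ) ^ (1 - ε / 2))

/-- **BK** (theorem `BK (hTT : St_TT) (hDI : St_DI) (hDU : BX.St_DU) (hPR : St_PR)
(hWX : BX.St_WX) (hGW : BX.St_GW) (hEX : BX.St_EX) : St_BK`).  As `BX.BK` (`BX/Bk.lean`). -/
def St_BK : Prop := ∀ θ ε : ℝ, θ < 1 / 2 → 0 < ε → ∃ (ε₀ η C : ℝ), 0 < ε₀ ∧ 0 < η ∧ 0 < C ∧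
    ∀ (N D0 X : ℕ), 2 ≤ N → (X : ℝ) ≤ (N : ℝ) ^ θ → 1 ≤ D0 → (X : ℝ) ≤ (N : ℝ) ^ ε₀ * D0 →
    ∀ f : ℕ → ℝ, (∀ p, |f p| ≤ 1) → ∀ A : Finset ℤ, (∀ a ∈ A, |(a : ℝ)| ≤ (N : ℝ) ^ 2) →
    ∀ T : ℤ → Finset ℕ, (∀ a ∈ A, ∀ d ∈ T a, D0 < d ∧ d ≤ X ∧ BX.Rough ((N : ℝ) ^ ε) d) →
    ∑ a ∈ A, (∑ d ∈ T a, |BX.Df f N a d|) ^ 2 ≤
      C * (N / Real.log N) ^ 2 * (1 + A.card * (N : ℝ) ^ (-η))

/-- **FI** (theorem `FI (hBK : St_BK) : St_FI`).  As `BX.FI` (`BX/Fi.lean`). -/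
def St_FI : Prop := ∀ θ ε : ℝ, θ < 1 / 2 → 0 < ε → ∃ (η C : ℝ), 0 < η ∧ 0 < C ∧
    ∀ N : ℕ, 2 ≤ N → ∀ f : ℕ → ℝ, (∀ p, |f p| ≤ 1) →
    ∀ A : Finset ℤ, (∀ a ∈ A, |(a : ℝ)| ≤ (N : ℝ) ^ 2) →
    ∀ T : ℤ → Finset ℕ,
      (∀ a ∈ A, ∀ d ∈ T a, (d : ℝ) ≤ (N : ℝ) ^ θ ∧ BX.Rough ((N : ℝ) ^ ε) d) →
    ∑ a ∈ A, (∑ d ∈ T a, |BX.Df f N a d|) ^ 2 ≤
      C * (N / Real.log N) ^ 2 * (1 + A.card * (N : ℝ) ^ (-η))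

/-! ## Part 2: the weighted sieve with five prime factors -/

/-- the Richert weight of the middle prime `q` -/
noncomputable def cw (N : ℕ) (q : ℕ) : ℝ := 21 / 20 * (1 - tt N q / (2 / 5))

open Classical in
/-- the weight -/
noncomputable def Wf (N : ℕ) (ε₁ : ℝ) (n : ℕ) : ℝ :=
  (if ∀ p ∈ pr N ε₁ (1 / 8), ¬ p ∣ n then 1 else 0) *
    (1 - ∑ q ∈ pr N (1 / 8) (2 / 5), cw N q * (if q ∣ n then 1 else 0))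

/-- the indicator of `A` -/
noncomputable def fA (A : Finset ℕ) : ℕ → ℝ := fun p => if p ∈ A then 1 else 0

/-- **NU** (theorem `NU : St_NU`).  Numerical: left side `1.8925…`, right side `2.1746…`.  As
`W120.DC.NU` (`Pool/Agent/W120/DC/NU.lean`). -/
def St_NU : Prop := 21 / 20 * (∫ x in (1 / 8 : ℝ)..(2 / 5),
      (1 - x / (2 / 5)) / (x * (12 / 25 - x))) < Real.log (71 / 25) / (12 / 25)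

/-- **QS** (theorem `QS (hMI : St_MI) (hMP : St_MP) : St_QS`).  As `part` in
`Pool/Agent/W23/DC/Fin2.lean` (one range only). -/
def St_QS : Prop := ∀ η₂ : ℝ, 0 < η₂ → ∃ N₀ : ℕ, ∀ N : ℕ, N₀ ≤ N →
      ∑ q ∈ pr N (1 / 8) (2 / 5), 1 / ((q : ℝ) - 1) * (cw N q / (12 / 25 - tt N q)) ≤
      21 / 20 * (∫ x in (1 / 8 : ℝ)..(2 / 5), (1 - x / (2 / 5)) / (x * (12 / 25 - x))) + η₂

/-- **LW** (theorem `LW (hPT : St_PT) (hLN : St_LN) (hER : St_ER) (hMT : St_MT) (hMP : St_MP)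
(hNU : St_NU) (hQS : St_QS) : St_LW`).  As `lowerW` (`Pool/Agent/W23/DC/Fin3.lean`, `Fin4.lean`)
with level `12/25` for both sieves (`ta N q = 12/25 - tt N q`, `za N q = min (1/8) (ta N q)`),
sifting limit `1/8`, weights `cw` on `[1/8, 2/5)`.  The moduli `e` and `q e` are `≤ N^(12/25)`
(`WFac` with `b = 0`) and rough.  `ε₁ ≤ 1/25`. -/
def St_LW : Prop := ∀ (A0 : ℝ) (F f : ℝ → ℝ), SF A0 F f →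
    ∃ c₀ : ℝ, 0 < c₀ ∧ ∀ ε₁ : ℝ, 0 < ε₁ → ε₁ ≤ 1 / 25 → ∃ N₀ : ℕ, ∀ N : ℕ, N₀ ≤ N →
      ∀ A : Finset ℕ, (∀ p ∈ A, p.Prime ∧ p ≤ N) → ∀ a : ℤ,
      c₀ * ε₁ * A.card -
          3 * ∑ d ∈ BX.roughs ((N : ℝ) ^ (ε₁ / 2)) ⌊(N : ℝ) ^ (12 / 25 : ℝ)⌋₊,
            |BX.Df (fA A) N a d| ≤
        ∑ p ∈ A, Wf N ε₁ (a - (p : ℤ)).natAbs

/-- **ST** (theorem `ST : St_ST`).  Compare `struct` in `Pool/Agent/W23/DC/Fin5.lean`, but here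
with multiplicities.

Proof.  `s` = product of the prime factors `q ≥ N^(1/8)` of `n` with multiplicity, `m` = product of
the others (all `< N^ε₁` by the sieve condition: a prime factor in `[N^ε₁, N^(1/8))` is in
`pr N ε₁ (1/8)`).  Sum over the prime factors of `s` with multiplicity:
`∑ (1 - (5/2) tt q) ≤ ∑_{q ∣ n, 1/8 ≤ tt q < 2/5} (1 - (5/2) tt q) < 20/21`: factors with
`tt q ≥ 2/5` contribute `≤ 0`, the others have multiplicity one by hypothesis, and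
`∑ cw N q 1_{q ∣ n} < 1`.  `∑ tt q = log s/log N ≤ log (2 N²)/log N ≤ 2 + 1/1000` for `N ≥ N₀`.  So
the number of prime factors of `s` is `< 20/21 + (5/2)(2 + 1/1000) < 6`. -/
def St_ST : Prop := ∃ N₀ : ℕ, ∀ N : ℕ, N₀ ≤ N → ∀ (ε₁ : ℝ) (n : ℕ), n ≠ 0 → n ≤ 2 * N ^ 2 →
    0 < Wf N ε₁ n →
    (∀ q : ℕ, q.Prime → (N : ℝ) ^ (1 / 8 : ℝ) ≤ q → (q : ℝ) < (N : ℝ) ^ (2 / 5 : ℝ) →
      ¬ q ^ 2 ∣ n) →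
    ∃ m s : ℕ, n = m * s ∧ (∀ l : ℕ, l.Prime → l ∣ m → (l : ℝ) < (N : ℝ) ^ ε₁) ∧
      s.primeFactorsList.length ≤ 5 ∧ ∀ q ∈ s.primeFactors, (N : ℝ) ^ (1 / 8 : ℝ) ≤ q

open Classical in
/-- **SQ** (theorem `SQ : St_SQ`).  `#{1 ≤ p ≤ N : p ≡ a mod q²} ≤ N/q² + 1`, summed over
`N^(1/8) ≤ q < N^(2/5)` (compare `squares` in `Pool/Agent/W23/DC/Fin5.lean`). -/
def St_SQ : Prop := ∀ N : ℕ, 2 ≤ N → ∀ A : Finset ℕ, (∀ p ∈ A, 1 ≤ p ∧ p ≤ N) → ∀ a : ℤ,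
    ((A.filter (fun p : ℕ => ∃ q : ℕ, q.Prime ∧ (N : ℝ) ^ (1 / 8 : ℝ) ≤ q ∧
      (q : ℝ) < (N : ℝ) ^ (2 / 5 : ℝ) ∧ q ^ 2 ∣ (a - (p : ℤ)).natAbs)).card : ℝ) ≤
      8 * (N : ℝ) ^ (7 / 8 : ℝ)

open Classical in
/-- **SP** (theorem `SP : St_SP`).  `W342.DC.SP` (`Pool/Agent/W342/DC/SP.lean`, see the comment of
`St_SP` in `Pool/Agent/W23/DC/Defs.lean`) with `|a| ≤ N²` in place of `|a| ≤ N`: now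
`|a - p| ≤ 2 N²`, the prime powers run up to `2 N²`; they are powers of primes below `N^ε₁`, and for
`l^j > N^(1/2)` the number of `p` is `≤ N/l^j + 1`, the number of these prime powers
`≤ C N^(1/8) log N`. -/
def St_SP : Prop := ∃ C : ℝ, 0 < C ∧ ∀ ε₁ ε' : ℝ, 0 < ε₁ → ε₁ ≤ 1 / 8 → 0 < ε' → ∃ N₀ : ℕ,
    ∀ N : ℕ, N₀ ≤ N → ∀ a : ℤ, |(a : ℝ)| ≤ (N : ℝ) ^ 2 →
    (((Icc 1 N).filter (fun p : ℕ => p.Prime ∧ (p : ℤ) ≠ a ∧ ∃ m : ℕ, m ∣ (a - p).natAbs ∧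
      (∀ l : ℕ, l.Prime → l ∣ m → (l : ℝ) < (N : ℝ) ^ ε₁) ∧ (N : ℝ) ^ ε' < m)).card : ℝ) ≤
      C * (ε₁ / ε') ^ 2 * (N / Real.log N)

end Pool.Agent.W21.RV
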