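import Pool.Agent.W21.RV.Fin2
import Pool.Agent.H442R2.BX.Asm
import Pool.Agent.W52.DC.PT
import Pool.Agent.W120.DC.LN
import Pool.Agent.W586.DC.ER
import Pool.Agent.W366.DC.SFX
import Pool.Agent.W505.DC.MI
import Pool.Agent.W505.DC.MT
import Pool.Agent.W378.DC.MP
import Pool.Agent.W483.RV.RC
import Pool.Agent.W540.RV.NC
import Pool.Agent.W918.RV.CO
import Pool.Agent.W419.RV.DP
import Pool.Agent.W48.RV.TT
import Pool.Agent.W798.RV.BK
import Pool.Agent.W95.RV.FI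
import Pool.Agent.W482.RV.NU
import Pool.Agent.W855.RV.QS
import Pool.Agent.W489.RV.LW
import Pool.Agent.W289.RV.ST
import Pool.Agent.W15.RV.SQ
import Pool.Agent.W974.RV.SP

/-!
RV project (helper21): assembly.
-/

set_option autoImplicit false

namespace Pool.Agent.W21.RV

open Pool.Agent.H442R2
open Pool.Agent.W23.DC

theorem PB_thm : St_PB := W483.RV.PB W483.RV.RC BX.RA
theorem NC_thm : St_NC := W540.RV.NC W483.RV.RC BX.GS
theorem CO_thm : St_CO := W918.RV.CO BX.SV_thm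
theorem TT_thm : St_TT := W48.RV.TT CO_thm BX.SM_thm BX.EX NC_thm BX.RB PB_thm
theorem DI_thm : St_DI := W419.RV.DI PB_thm BX.GS BX.GW_thm
theorem PR_thm : St_PR := W419.RV.PR PB_thm BX.RT
theorem BK_thm : St_BK := W798.RV.BK TT_thm DI_thm BX.DU PR_thm BX.WX BX.GW_thm BX.EX
theorem FI_thm : St_FI := W95.RV.FI BK_thm
theorem QS_thm : St_QS := W855.RV.QS W505.DC.MI W378.DC.MP
theorem LW_thm : St_LW := W489.RV.LW W52.DC.PT W120.DC.LN W586.DC.ER (W505.DC.MT W505.DC.MI)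
  W378.DC.MP W482.RV.NU QS_thm

theorem main_thm (δ ε : ℝ) (hδ : 0 < δ) (hε : 0 < ε) :
    ∃ (c : ℝ) (K : ℕ), 0 < c ∧ ∀ X : ℕ, 2 ≤ X → ∀ A : Finset ℕ,
      (∀ p ∈ A, p.Prime ∧ p ≤ X) → δ * X / Real.log X ≤ A.card →
      {N : ℤ | |N| ≤ (X : ℤ) ^ 2 ∧ ((good A N X ε).ncard : ℝ) < c * A.card}.ncard ≤ K :=
  main LW_thm W366.DC.SFX W289.RV.ST W15.RV.SQ W974.RV.SP FI_thm δ ε hδ hε

end Pool.Agent.W21.RV
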