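import Pool.Agent.W21.RV.Defs
import Pool.Agent.W23.DC.Fin5

/-!
RV project (helper21): assembly of the theorem from its parts.
-/

set_option autoImplicit false

namespace Pool.Agent.W21.RV

open Finset Filter
open Pool.Agent.H442R2
open Pool.Agent.H442R2.KF
open Pool.Agent.W23.DC

theorem few (h : St_FI) {θ ε κ : ℝ} (hθ : θ < 1 / 2) (hε : 0 < ε) (hκ : 0 < κ) :
    ∃ K : ℕ, ∀ N : ℕ, 2 ≤ N → ∀ f : ℕ → ℝ, (∀ p, |f p| ≤ 1) →
      ((Icc (-((N : ℤ) ^ 2)) ((N : ℤ) ^ 2)).filter (fun a : ℤ => κ * (N / Real.log N) <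
        ∑ d ∈ BX.roughs ((N : ℝ) ^ ε) ⌊(N : ℝ) ^ θ⌋₊, |BX.Df f N a d|)).card ≤ K := by
  obtain ⟨η, C, hη, hC, H⟩ := h θ ε hθ hε
  have hlim : ∃ N₀ : ℕ, ∀ N : ℕ, N₀ ≤ N → C * (N : ℝ) ^ (-η) ≤ κ ^ 2 / 2 := by
    have h1 : Filter.Tendsto (fun N : ℕ => C * (N : ℝ) ^ (-η)) Filter.atTop (nhds (C * 0)) :=
      ((tendsto_rpow_neg_atTop hη).comp (tendsto_natCast_atTop_atTop (R := ℝ))).const_mul C
    rw [mul_zero] at h1
    have h2 := h1.eventually_le_const (show (0 : ℝ) < κ ^ 2 / 2 by positivity)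
    exact Filter.eventually_atTop.1 h2
  obtain ⟨N₀, hN₀⟩ := hlim
  refine ⟨max (2 * N₀ ^ 2 + 1) ⌈2 * C / κ ^ 2⌉₊, ?_⟩
  intro N hN f hf
  set E := (Icc (-((N : ℤ) ^ 2)) ((N : ℤ) ^ 2)).filter (fun a : ℤ => κ * (N / Real.log N) <
        ∑ d ∈ BX.roughs ((N : ℝ) ^ ε) ⌊(N : ℝ) ^ θ⌋₊, |BX.Df f N a d|) with hE
  rcases lt_or_ge N N₀ with hlt | hge
  · refine le_trans ?_ (le_max_left _ _)
    have h1 : E.card ≤ (Icc (-((N : ℤ) ^ 2)) ((N : ℤ) ^ 2)).card := card_filter_le _ _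
    rw [Int.card_Icc] at h1
    have h2 : ((N : ℤ) ^ 2 + 1 - -((N : ℤ) ^ 2)).toNat = 2 * N ^ 2 + 1 := by
      have : (N : ℤ) ^ 2 + 1 - -((N : ℤ) ^ 2) = ((2 * N ^ 2 + 1 : ℕ) : ℤ) := by push_cast; ring
      rw [this, Int.toNat_natCast]
    rw [h2] at h1
    have h3 : N ^ 2 ≤ N₀ ^ 2 := Nat.pow_le_pow_left hlt.le 2
    omega
  · refine le_trans ?_ (le_max_right _ _)
    have hA : ∀ a ∈ E, |(a : ℝ)| ≤ (N : ℝ) ^ 2 := by
      intro a ha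
      rw [hE, mem_filter, mem_Icc] at ha
      rw [abs_le]
      constructor
      · exact_mod_cast ha.1.1
      · exact_mod_cast ha.1.2
    have hT : ∀ a ∈ E, ∀ d ∈ (fun _ : ℤ => BX.roughs ((N : ℝ) ^ ε) ⌊(N : ℝ) ^ θ⌋₊) a,
        (d : ℝ) ≤ (N : ℝ) ^ θ ∧ BX.Rough ((N : ℝ) ^ ε) d := by
      intro a _ d hd
      classical
      unfold BX.roughs at hd
      rw [mem_filter, mem_Icc] at hd
      exact ⟨(Nat.le_floor_iff (by positivity)).1 hd.1.2, hd.2⟩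
    have h1 := H N hN f hf E hA (fun _ => BX.roughs ((N : ℝ) ^ ε) ⌊(N : ℝ) ^ θ⌋₊) hT
    have hNr : (2 : ℝ) ≤ N := by exact_mod_cast hN
    have hL : 0 < Real.log N := Real.log_pos (by linarith)
    have hN0 : (0 : ℝ) < N := by linarith
    have hQ : 0 < (N / Real.log N) ^ 2 := by positivity
    have h2 : (E.card : ℝ) * (κ ^ 2 * (N / Real.log N) ^ 2) ≤
        ∑ a ∈ E, (∑ d ∈ BX.roughs ((N : ℝ) ^ ε) ⌊(N : ℝ) ^ θ⌋₊, |BX.Df f N a d|) ^ 2 := by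
      rw [← nsmul_eq_mul, ← Finset.sum_const]
      apply Finset.sum_le_sum
      intro a ha
      rw [hE, mem_filter] at ha
      rw [← mul_pow]
      exact pow_le_pow_left₀ (by positivity) ha.2.le 2
    have h3 : (E.card : ℝ) * κ ^ 2 ≤ C * (1 + E.card * (N : ℝ) ^ (-η)) := by
      have h4 : ((E.card : ℝ) * κ ^ 2) * (N / Real.log N) ^ 2 ≤
          (C * (1 + E.card * (N : ℝ) ^ (-η))) * (N / Real.log N) ^ 2 := by
        calc ((E.card : ℝ) * κ ^ 2) * (N / Real.log N) ^ 2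
            = (E.card : ℝ) * (κ ^ 2 * (N / Real.log N) ^ 2) := by ring
          _ ≤ C * (N / Real.log N) ^ 2 * (1 + E.card * (N : ℝ) ^ (-η)) := h2.trans h1
          _ = _ := by ring
      exact le_of_mul_le_mul_right h4 hQ
    have h5 := hN₀ N hge
    have h6 : (E.card : ℝ) * (C * (N : ℝ) ^ (-η)) ≤ E.card * (κ ^ 2 / 2) :=
      mul_le_mul_of_nonneg_left h5 (Nat.cast_nonneg _)
    have h7 : (E.card : ℝ) * (κ ^ 2 / 2) ≤ C := by nlinarith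
    have h8 : (E.card : ℝ) ≤ 2 * C / κ ^ 2 := by
      rw [le_div_iff₀ (by positivity)]
      linarith
    exact_mod_cast h8.trans (Nat.le_ceil _)

theorem fA_le (A : Finset ℕ) (p : ℕ) : |fA A p| ≤ 1 := by
  unfold fA
  split_ifs <;> simp

theorem cw_nonneg {N : ℕ} {u : ℝ} : ∀ q ∈ pr N u (2 / 5), 0 ≤ cw N q := by
  intro q hq
  have := (mem_pr.1 hq).2.2.2
  unfold cw
  have h1 : tt N q / (2 / 5) ≤ 1 := by
    rw [div_le_one (by norm_num)]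
    exact this.le
  nlinarith

theorem Wf_le_one {N : ℕ} {ε₁ : ℝ} (n : ℕ) : Wf N ε₁ n ≤ 1 := by
  classical
  unfold Wf
  have h1 : 0 ≤ ∑ q ∈ pr N (1 / 8) (2 / 5), cw N q * (if q ∣ n then 1 else 0) := by
    apply Finset.sum_nonneg
    intro q hq
    have := cw_nonneg q hq
    split_ifs <;> simp [this]
  split_ifs <;> linarith

theorem sum_le_pos {N : ℕ} {ε₁ : ℝ} (A : Finset ℕ) (n : ℕ → ℕ) :
    ∑ p ∈ A, Wf N ε₁ (n p) ≤ ((A.filter (fun p => 0 < Wf N ε₁ (n p))).card : ℝ) := by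
  classical
  rw [← Finset.sum_filter_add_sum_filter_not A (fun p => 0 < Wf N ε₁ (n p))]
  have h1 : ∑ p ∈ A.filter (fun p => ¬ 0 < Wf N ε₁ (n p)), Wf N ε₁ (n p) ≤ 0 := by
    apply Finset.sum_nonpos
    intro p hp
    exact not_lt.1 (mem_filter.1 hp).2
  have h2 : ∑ p ∈ A.filter (fun p => 0 < Wf N ε₁ (n p)), Wf N ε₁ (n p) ≤
      ((A.filter (fun p => 0 < Wf N ε₁ (n p))).card : ℝ) := by
    calc _ ≤ ∑ p ∈ A.filter (fun p => 0 < Wf N ε₁ (n p)), (1 : ℝ) :=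
          Finset.sum_le_sum fun p _ => Wf_le_one _
      _ = _ := by simp
  linarith

open Classical in
/-- the theorem in terms of `N` -/
theorem main_N (hLW : St_LW) (hSFX : St_SFX) (hST : St_ST) (hSQ : St_SQ) (hSP : St_SP)
    (hFI : St_FI) (δ ε : ℝ) (hδ : 0 < δ) (hε : 0 < ε) (hε1 : ε ≤ 1 / 2) :
    ∃ (c : ℝ) (K N₀ : ℕ), 0 < c ∧ ∀ N : ℕ, N₀ ≤ N → ∀ A : Finset ℕ,
      (∀ p ∈ A, p.Prime ∧ p ≤ N) → δ * (N / Real.log N) ≤ A.card →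
      ((Icc (-((N : ℤ) ^ 2)) ((N : ℤ) ^ 2)).filter (fun a : ℤ => ((A.filter (fun p : ℕ =>
        ∃ m s : ℕ, (a - p).natAbs = m * s ∧ (m : ℝ) ≤ (N : ℝ) ^ ε ∧ 1 < s ∧
          s.primeFactorsList.length ≤ 5 ∧
          ∀ q ∈ s.primeFactors, (N : ℝ) ^ (1 / 8 : ℝ) ≤ q)).card : ℝ) < c * A.card)).card ≤ K := by
  obtain ⟨A0, F, f, hS⟩ := hSFX
  obtain ⟨c₀, hc₀, H1⟩ := hLW A0 F f hS
  obtain ⟨C, hC, H2⟩ := hSP
  -- the choice of `ε₁`
  obtain ⟨ε₁, hε₁, hε₁a, hε₁b⟩ : ∃ ε₁ : ℝ, 0 < ε₁ ∧ ε₁ ≤ 1 / 25 ∧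
      C * (ε₁ / ε) ^ 2 ≤ c₀ * ε₁ * δ / 8 := by
    refine ⟨min (1 / 25) (c₀ * δ * ε ^ 2 / (8 * C)), lt_min (by norm_num) (by positivity),
      min_le_left _ _, ?_⟩
    set e := min (1 / 25) (c₀ * δ * ε ^ 2 / (8 * C)) with he
    have h1 : e ≤ c₀ * δ * ε ^ 2 / (8 * C) := min_le_right _ _
    have h2 : 0 < e := lt_min (by norm_num) (by positivity)
    rw [le_div_iff₀ (by positivity)] at h1
    have h3 : C * (e / ε) ^ 2 = (e * (8 * C)) * e / (8 * ε ^ 2) := by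
      field_simp
    have h4 : c₀ * e * δ / 8 = (c₀ * δ * ε ^ 2) * e / (8 * ε ^ 2) := by
      field_simp
    rw [h3, h4]
    gcongr
  obtain ⟨N₁, hN₁⟩ := H1 ε₁ hε₁ hε₁a
  obtain ⟨N₂, hN₂⟩ := H2 ε₁ ε hε₁ (by linarith) hε
  obtain ⟨N₃, hN₃⟩ := hST
  obtain ⟨κ, hκ, hκ2⟩ : ∃ κ : ℝ, 0 < κ ∧ 3 * κ = c₀ * ε₁ * δ / 8 :=
    ⟨c₀ * ε₁ * δ / 24, by positivity, by ring⟩
  obtain ⟨K, hK⟩ := few hFI (θ := 12 / 25) (ε := ε₁ / 2) (κ := κ) (by norm_num)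
    (by positivity) hκ
  -- large `N`
  obtain ⟨N₄, hN₄⟩ : ∃ N₄ : ℕ, ∀ N : ℕ, N₄ ≤ N →
      8 * (N : ℝ) ^ (7 / 8 : ℝ) + 2 * (N : ℝ) ^ ε + 2 ≤ c₀ * ε₁ * δ / 8 * (N / Real.log N) := by
    have hk : 0 < c₀ * ε₁ * δ / 8 := by positivity
    have hlim : Tendsto (fun x : ℝ => Real.log x / x ^ (1 / 16 : ℝ)) atTop (nhds 0) :=
      (isLittleO_log_rpow_atTop (by norm_num : (0 : ℝ) < 1 / 16)).tendsto_div_nhds_zero
    have h1 := (hlim.comp (tendsto_natCast_atTop_atTop (R := ℝ))).eventually_le_const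
      (show (0 : ℝ) < c₀ * ε₁ * δ / 8 / 16 by positivity)
    obtain ⟨M, hM⟩ := Filter.eventually_atTop.1 h1
    refine ⟨max M 2, fun N hN => ?_⟩
    have hNM : M ≤ N := (le_max_left _ _).trans hN
    have hN2 : 2 ≤ N := (le_max_right _ _).trans hN
    have hN1 : (1 : ℝ) < N := by exact_mod_cast (by omega : 1 < N)
    have hN0 : (0 : ℝ) < N := by linarith
    have hL : 0 < Real.log N := Real.log_pos hN1
    have h2 : Real.log N / (N : ℝ) ^ (1 / 16 : ℝ) ≤ c₀ * ε₁ * δ / 8 / 16 := hM N hNM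
    have h3 : Real.log N ≤ c₀ * ε₁ * δ / 8 / 16 * (N : ℝ) ^ (1 / 16 : ℝ) := by
      rwa [div_le_iff₀ (by positivity)] at h2
    have h4 : (N : ℝ) ^ (7 / 8 : ℝ) ≤ (N : ℝ) ^ (15 / 16 : ℝ) :=
      Real.rpow_le_rpow_of_exponent_le hN1.le (by norm_num)
    have h5 : (N : ℝ) ^ ε ≤ (N : ℝ) ^ (15 / 16 : ℝ) :=
      Real.rpow_le_rpow_of_exponent_le hN1.le (by linarith)
    have h6 : (1 : ℝ) ≤ (N : ℝ) ^ (15 / 16 : ℝ) := Real.one_le_rpow hN1.le (by norm_num)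
    have h7 : 16 * (N : ℝ) ^ (15 / 16 : ℝ) ≤ c₀ * ε₁ * δ / 8 * (N / Real.log N) := by
      rw [← mul_div_assoc, le_div_iff₀ hL]
      calc 16 * (N : ℝ) ^ (15 / 16 : ℝ) * Real.log N
          ≤ 16 * (N : ℝ) ^ (15 / 16 : ℝ) * (c₀ * ε₁ * δ / 8 / 16 * (N : ℝ) ^ (1 / 16 : ℝ)) := by
            gcongr
        _ = c₀ * ε₁ * δ / 8 * ((N : ℝ) ^ (15 / 16 : ℝ) * (N : ℝ) ^ (1 / 16 : ℝ)) := by ring
        _ = c₀ * ε₁ * δ / 8 * N := by
            rw [← Real.rpow_add hN0]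
            norm_num
    linarith
  refine ⟨c₀ * ε₁ / 4, K, max (max N₁ N₂) (max (max N₃ N₄) 2), by positivity, ?_⟩
  intro N hN A hA hAc
  have hNN₁ : N₁ ≤ N := ((le_max_left _ _).trans (le_max_left _ _)).trans hN
  have hNN₂ : N₂ ≤ N := ((le_max_right _ _).trans (le_max_left _ _)).trans hN
  have hNN₃ : N₃ ≤ N :=
    (((le_max_left _ _).trans (le_max_left _ _)).trans (le_max_right _ _)).trans hN
  have hNN₄ : N₄ ≤ N :=
    (((le_max_right _ _).trans (le_max_left _ _)).trans (le_max_right _ _)).trans hN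
  have hN2 : 2 ≤ N := ((le_max_right _ _).trans (le_max_right _ _)).trans hN
  have hN1 : (1 : ℝ) < N := by exact_mod_cast (by omega : 1 < N)
  have hN0 : (0 : ℝ) < N := by linarith
  have hL : 0 < Real.log N := Real.log_pos hN1
  refine le_trans (Finset.card_le_card ?_) (hK N hN2 (fA A) (fA_le A))
  intro a ha
  rw [mem_filter] at ha ⊢
  refine ⟨ha.1, ?_⟩
  by_contra hnot
  rw [not_lt] at hnot
  have ha' : |(a : ℝ)| ≤ (N : ℝ) ^ 2 := by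
    rw [mem_Icc] at ha
    rw [abs_le]
    constructor
    · exact_mod_cast ha.1.1
    · exact_mod_cast ha.1.2
  have haz : |a| ≤ (N : ℤ) ^ 2 := by
    rw [mem_Icc] at ha
    exact abs_le.2 ha.1
  have hlow := hN₁ N hNN₁ A hA a
  have hpos := sum_le_pos (N := N) (ε₁ := ε₁) A (fun p : ℕ => (a - (p : ℤ)).natAbs)
  -- the good set
  set Gd := A.filter (fun p : ℕ =>
        ∃ m s : ℕ, (a - p).natAbs = m * s ∧ (m : ℝ) ≤ (N : ℝ) ^ ε ∧ 1 < s ∧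
          s.primeFactorsList.length ≤ 5 ∧
          ∀ q ∈ s.primeFactors, (N : ℝ) ^ (1 / 8 : ℝ) ≤ q) with hGd
  have hgood : (Gd.card : ℝ) < c₀ * ε₁ / 4 * A.card := ha.2
  set B1 := A.filter (fun p : ℕ => ∃ q : ℕ, q.Prime ∧ (N : ℝ) ^ (1 / 8 : ℝ) ≤ q ∧
      (q : ℝ) < (N : ℝ) ^ (2 / 5 : ℝ) ∧ q ^ 2 ∣ (a - (p : ℤ)).natAbs) with hB1
  set B2 := (Icc 1 N).filter (fun p : ℕ => p.Prime ∧ (p : ℤ) ≠ a ∧ ∃ m : ℕ,
      m ∣ (a - (p : ℤ)).natAbs ∧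
      (∀ l : ℕ, l.Prime → l ∣ m → (l : ℝ) < (N : ℝ) ^ ε₁) ∧ (N : ℝ) ^ ε < m) with hB2
  set B3 := A.filter (fun p : ℕ => ((a - (p : ℤ)).natAbs : ℝ) ≤ (N : ℝ) ^ ε) with hB3
  have hcover : A.filter (fun p : ℕ => 0 < Wf N ε₁ (a - (p : ℤ)).natAbs) ⊆ ((Gd ∪ B1) ∪ B2) ∪ B3 := by
    intro p hp
    rw [mem_filter] at hp
    obtain ⟨hpA, hpW⟩ := hp
    by_contra hno
    simp only [mem_union, not_or] at hno
    obtain ⟨⟨⟨g1, g2⟩, g3⟩, g4⟩ := hno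
    have hε0 : (0 : ℝ) ≤ (N : ℝ) ^ ε := by positivity
    have hpa : (p : ℤ) ≠ a := by
      rintro rfl
      apply g4
      rw [hB3, mem_filter]
      exact ⟨hpA, by simpa using hε0⟩
    have hn0 : (a - (p : ℤ)).natAbs ≠ 0 := by
      rw [Ne, Int.natAbs_eq_zero]
      omega
    have hn2 : (a - (p : ℤ)).natAbs ≤ 2 * N ^ 2 := by
      have h3 := abs_le.1 haz
      have h4 := (hA p hpA).2
      have h5 : (N : ℤ) ≤ (N : ℤ) ^ 2 := by nlinarith [(by exact_mod_cast hN2 : (2 : ℤ) ≤ N)]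
      have h6 : (p : ℤ) ≤ N := by exact_mod_cast h4
      have h7 : |a - (p : ℤ)| ≤ 2 * (N : ℤ) ^ 2 := by
        rw [abs_le]
        have h8 : (0 : ℤ) ≤ p := Int.natCast_nonneg p
        constructor <;> linarith [h3.1, h3.2]
      have h9 : (((a - (p : ℤ)).natAbs : ℕ) : ℤ) ≤ ((2 * N ^ 2 : ℕ) : ℤ) := by
        rw [Int.natCast_natAbs]
        push_cast
        exact h7
      exact_mod_cast h9
    obtain ⟨m, s, hms, hm, hs2, hs3⟩ := hN₃ N hNN₃ ε₁ _ hn0 hn2 hpW (fun q hq hqN hqN2 hqd => by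
      apply g2
      rw [hB1, mem_filter]
      exact ⟨hpA, q, hq, hqN, hqN2, hqd⟩)
    have hmN : (m : ℝ) ≤ (N : ℝ) ^ ε := by
      by_contra hlt
      rw [not_le] at hlt
      apply g3
      rw [hB2, mem_filter, mem_Icc]
      exact ⟨⟨(hA p hpA).1.pos, (hA p hpA).2⟩, (hA p hpA).1, hpa, m, ⟨s, hms⟩, hm, hlt⟩
    have hs1 : 1 < s := by
      by_contra hle
      have hs0 : s ≠ 0 := by
        rintro rfl
        exact hn0 (by rw [hms, mul_zero])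
      have hs1 : s = 1 := by omega
      apply g4
      rw [hB3, mem_filter, hms, hs1, mul_one]
      exact ⟨hpA, hmN⟩
    apply g1
    rw [hGd, mem_filter]
    exact ⟨hpA, m, s, hms, hmN, hs1, hs2, hs3⟩
  have hcard : ((A.filter (fun p : ℕ => 0 < Wf N ε₁ (a - (p : ℤ)).natAbs)).card : ℝ) ≤
      Gd.card + B1.card + B2.card + B3.card := by
    have h1 := (Finset.card_le_card hcover).trans (Finset.card_union_le _ _)
    have h2 := Finset.card_union_le (Gd ∪ B1) B2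
    have h3 := Finset.card_union_le Gd B1
    have h4 : (A.filter (fun p : ℕ => 0 < Wf N ε₁ (a - (p : ℤ)).natAbs)).card ≤
        Gd.card + B1.card + B2.card + B3.card := by omega
    exact_mod_cast h4
  have hb1 : (B1.card : ℝ) ≤ 8 * (N : ℝ) ^ (7 / 8 : ℝ) := by
    have := hSQ N hN2 A (fun p hp => ⟨(hA p hp).1.pos, (hA p hp).2⟩) a
    convert this using 2
  have hb2 : (B2.card : ℝ) ≤ C * (ε₁ / ε) ^ 2 * (N / Real.log N) := by
    have := hN₂ N hNN₂ a ha'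
    convert this using 2
  have hb3 : (B3.card : ℝ) ≤ 2 * (N : ℝ) ^ ε + 1 := close A a _ (by positivity)
  have hb4 := hN₄ N hNN₄
  have hD : 0 ≤ (N : ℝ) / Real.log N := by positivity
  have hb5 : C * (ε₁ / ε) ^ 2 * (N / Real.log N) ≤ c₀ * ε₁ * δ / 8 * (N / Real.log N) :=
    mul_le_mul_of_nonneg_right hε₁b hD
  have hR : 3 * ∑ d ∈ BX.roughs ((N : ℝ) ^ (ε₁ / 2)) ⌊(N : ℝ) ^ (12 / 25 : ℝ)⌋₊,
      |BX.Df (fA A) N a d| ≤ c₀ * ε₁ * δ / 8 * (N / Real.log N) := by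
    calc _ ≤ 3 * (κ * (N / Real.log N)) := by linarith
      _ = (3 * κ) * (N / Real.log N) := by ring
      _ = _ := by rw [hκ2]
  have hAδ : c₀ * ε₁ * (δ * (N / Real.log N)) ≤ c₀ * ε₁ * A.card := by
    have : 0 ≤ c₀ * ε₁ := by positivity
    exact mul_le_mul_of_nonneg_left hAc this
  have hsumW : c₀ * ε₁ * A.card - c₀ * ε₁ * δ / 8 * (N / Real.log N) ≤
      Gd.card + B1.card + B2.card + B3.card := by
    linarith
  have hfin : c₀ * ε₁ * A.card ≤ Gd.card + 3 * (c₀ * ε₁ * δ / 8 * (N / Real.log N)) := by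
    linarith
  have hAc' : 0 ≤ c₀ * ε₁ * A.card := by positivity
  nlinarith

end Pool.Agent.W21.RV
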