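import Pool.Agent.W21.RV.Fin

/-!
RV project (helper21): the theorem in its final form.
-/

set_option autoImplicit false

namespace Pool.Agent.W21.RV

open Finset Filter
open Pool.Agent.H442R2
open Pool.Agent.H442R2.KF
open Pool.Agent.W23.DC

/-- the `p ∈ A` with `|N - p| = m s`, `m ≤ X^ε`, `s > 1` a product of at most five primes, all
`≥ X^(1/8)` -/
def good (A : Finset ℕ) (N : ℤ) (X : ℕ) (ε : ℝ) : Set ℕ :=
  {p : ℕ | p ∈ A ∧ ∃ m s : ℕ, (N - (p : ℤ)).natAbs = m * s ∧ (m : ℝ) ≤ (X : ℝ) ^ ε ∧ 1 < s ∧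
    s.primeFactorsList.length ≤ 5 ∧ ∀ q : ℕ, q.Prime → q ∣ s → (X : ℝ) ^ (1 / 8 : ℝ) ≤ q}

theorem main (hLW : St_LW) (hSFX : St_SFX) (hST : St_ST) (hSQ : St_SQ) (hSP : St_SP)
    (hFI : St_FI) (δ ε : ℝ) (hδ : 0 < δ) (hε : 0 < ε) :
    ∃ (c : ℝ) (K : ℕ), 0 < c ∧ ∀ X : ℕ, 2 ≤ X → ∀ A : Finset ℕ,
      (∀ p ∈ A, p.Prime ∧ p ≤ X) → δ * X / Real.log X ≤ A.card →
      {N : ℤ | |N| ≤ (X : ℤ) ^ 2 ∧ ((good A N X ε).ncard : ℝ) < c * A.card}.ncard ≤ K := by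
  classical
  obtain ⟨ε', hε', hε'1, hε'2⟩ : ∃ ε' : ℝ, 0 < ε' ∧ ε' ≤ 1 / 2 ∧ ε' ≤ ε :=
    ⟨min (1 / 2) ε, lt_min (by norm_num) (by positivity), min_le_left _ _, min_le_right _ _⟩
  obtain ⟨c, K, N₀, hc, H⟩ := main_N hLW hSFX hST hSQ hSP hFI δ ε' hδ hε' hε'1
  refine ⟨c, max K (2 * N₀ ^ 2 + 1), hc, ?_⟩
  intro X hX A hA hAc
  have hfinI : {N : ℤ | |N| ≤ (X : ℤ) ^ 2 ∧ ((good A N X ε).ncard : ℝ) < c * A.card} ⊆
      ((Icc (-((X : ℤ) ^ 2)) ((X : ℤ) ^ 2) : Finset ℤ) : Set ℤ) := by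
    rintro N ⟨h1, -⟩
    rw [Finset.mem_coe, Finset.mem_Icc]
    exact abs_le.1 h1
  rcases lt_or_ge X N₀ with hlt | hge
  · refine le_trans ?_ (le_max_right _ _)
    have h1 := Set.ncard_le_ncard hfinI (Finset.finite_toSet _)
    rw [Set.ncard_coe_finset, Int.card_Icc] at h1
    have h2 : ((X : ℤ) ^ 2 + 1 - -((X : ℤ) ^ 2)).toNat = 2 * X ^ 2 + 1 := by
      have : (X : ℤ) ^ 2 + 1 - -((X : ℤ) ^ 2) = ((2 * X ^ 2 + 1 : ℕ) : ℤ) := by push_cast; ring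
      rw [this, Int.toNat_natCast]
    rw [h2] at h1
    have h3 : X ^ 2 ≤ N₀ ^ 2 := Nat.pow_le_pow_left hlt.le 2
    omega
  · refine le_trans ?_ (le_max_left _ _)
    have hX1 : (1 : ℝ) ≤ X := by exact_mod_cast (by omega : 1 ≤ X)
    have key := H X hge A hA (by rw [← mul_div_assoc]; exact hAc)
    refine le_trans ?_ key
    refine le_trans (Set.ncard_le_ncard ?_ (Finset.finite_toSet _))
      (le_of_eq (Set.ncard_coe_finset _))
    rintro N ⟨h1, h2⟩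
    rw [Finset.mem_coe, Finset.mem_filter, Finset.mem_Icc]
    refine ⟨abs_le.1 h1, lt_of_le_of_lt ?_ h2⟩
    rw [← Set.ncard_coe_finset]
    have hfin : (good A N X ε).Finite := A.finite_toSet.subset fun p hp => hp.1
    have hsub : ((A.filter (fun p : ℕ =>
        ∃ m s : ℕ, (N - p).natAbs = m * s ∧ (m : ℝ) ≤ (X : ℝ) ^ ε' ∧ 1 < s ∧
          s.primeFactorsList.length ≤ 5 ∧
          ∀ q ∈ s.primeFactors, (X : ℝ) ^ (1 / 8 : ℝ) ≤ q) : Finset ℕ) : Set ℕ) ⊆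
        good A N X ε := by
      intro p hp
      rw [Finset.mem_coe, Finset.mem_filter] at hp
      obtain ⟨hpA, m, s, e1, e2, e3, e4, e5⟩ := hp
      exact ⟨hpA, m, s, e1, e2.trans (Real.rpow_le_rpow_of_exponent_le hX1 hε'2), e3, e4,
        fun q hq hqs => e5 q (Nat.mem_primeFactors.2 ⟨hq, hqs, by omega⟩)⟩
    exact_mod_cast Set.ncard_le_ncard hsub hfin

/-- the `p ∈ A` with `N = p + m s`, `m ≤ Y^ε`, `s > 1` a product of at most five primes, all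
`≥ Y^(1/16)` -/
def goodR (A : Finset ℕ) (N Y : ℕ) (ε : ℝ) : Set ℕ :=
  {p : ℕ | p ∈ A ∧ ∃ m s : ℕ, N = p + m * s ∧ (m : ℝ) ≤ (Y : ℝ) ^ ε ∧ 1 < s ∧
    s.primeFactorsList.length ≤ 5 ∧ ∀ q : ℕ, q.Prime → q ∣ s → (Y : ℝ) ^ (1 / 16 : ℝ) ≤ q}

/-- the window form -/
theorem window (hm : ∀ δ ε : ℝ, 0 < δ → 0 < ε →
    ∃ (c : ℝ) (K : ℕ), 0 < c ∧ ∀ X : ℕ, 2 ≤ X → ∀ A : Finset ℕ,
      (∀ p ∈ A, p.Prime ∧ p ≤ X) → δ * X / Real.log X ≤ A.card →
      {N : ℤ | |N| ≤ (X : ℤ) ^ 2 ∧ ((good A N X ε).ncard : ℝ) < c * A.card}.ncard ≤ K)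
    (δ ε : ℝ) (hδ : 0 < δ) (hε : 0 < ε) :
    ∃ (c : ℝ) (K : ℕ), 0 < c ∧ ∀ Y : ℕ, 2 ≤ Y → ∀ A : Finset ℕ,
      (∀ p ∈ A, p.Prime ∧ (p : ℝ) < 4 * Real.sqrt Y) → δ * Real.sqrt Y / Real.log Y ≤ A.card →
      {N : ℕ | Y ≤ N ∧ N ≤ 2 * Y ∧ ((goodR A N Y ε).ncard : ℝ) < c * A.card}.ncard ≤ K := by
  classical
  obtain ⟨c, K, hc, H⟩ := hm (δ / 10) ε (by positivity) hε
  refine ⟨c, max K 26, hc, ?_⟩
  intro Y hY A hA hAc
  have hfinI : {N : ℕ | Y ≤ N ∧ N ≤ 2 * Y ∧ ((goodR A N Y ε).ncard : ℝ) < c * A.card} ⊆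
      ((Icc Y (2 * Y) : Finset ℕ) : Set ℕ) := by
    rintro N ⟨h1, h2, -⟩
    rw [Finset.mem_coe, Finset.mem_Icc]
    exact ⟨h1, h2⟩
  rcases lt_or_ge Y 25 with hlt | hge
  · refine le_trans ?_ (le_max_right _ _)
    have h1 := Set.ncard_le_ncard hfinI (Finset.finite_toSet _)
    rw [Set.ncard_coe_finset, Nat.card_Icc] at h1
    omega
  refine le_trans ?_ (le_max_left _ _)
  have hY25 : (25 : ℝ) ≤ Y := by exact_mod_cast hge
  have hY0 : (0 : ℝ) ≤ Y := by linarith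
  set r := Real.sqrt Y with hr
  have hr5 : 5 ≤ r := by
    rw [hr, Real.le_sqrt (by norm_num) hY0]
    linarith
  have hrr : r * r = Y := Real.mul_self_sqrt hY0
  set X := ⌈4 * r⌉₊ with hX
  have hX1 : 4 * r ≤ X := Nat.le_ceil _
  have hX2 : (X : ℝ) ≤ 5 * r := by
    have := (Nat.ceil_lt_add_one (show 0 ≤ 4 * r by linarith)).le
    rw [← hX] at this
    linarith
  have hXr : (20 : ℝ) ≤ X := by linarith
  have hX20 : 20 ≤ X := by exact_mod_cast hXr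
  have hXY : (X : ℝ) ≤ Y := by nlinarith
  have hlogY : 0 < Real.log Y := Real.log_pos (by linarith)
  have hlogX : Real.log Y / 2 ≤ Real.log X := by
    have h1 : Real.log Y / 2 = Real.log r := by
      rw [hr, Real.log_sqrt hY0]
    rw [h1]
    exact Real.log_le_log (by linarith) (by linarith)
  have hcard : δ / 10 * X / Real.log X ≤ A.card := by
    refine le_trans ?_ hAc
    have hlX : 0 < Real.log X := by linarith
    rw [div_le_div_iff₀ hlX hlogY]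
    have e1 : δ / 10 * X * Real.log Y ≤ δ / 10 * (5 * r) * Real.log Y := by gcongr
    have e2 : δ / 10 * (5 * r) * Real.log Y = δ * r * (Real.log Y / 2) := by ring
    have e3 : δ * r * (Real.log Y / 2) ≤ δ * r * Real.log X := by
      have : 0 ≤ δ * r := by positivity
      exact mul_le_mul_of_nonneg_left hlogX this
    linarith
  have key := H X (by omega) A (fun p hp => ⟨(hA p hp).1, by
    have := (hA p hp).2
    have h2 : (p : ℝ) ≤ X := by linarith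
    exact_mod_cast h2⟩) hcard
  refine le_trans ?_ key
  have hfinZ : {N : ℤ | |N| ≤ (X : ℤ) ^ 2 ∧ ((good A N X ε).ncard : ℝ) < c * A.card}.Finite := by
    apply (Finset.finite_toSet (Icc (-((X : ℤ) ^ 2)) ((X : ℤ) ^ 2))).subset
    rintro N ⟨h1, -⟩
    rw [Finset.mem_coe, Finset.mem_Icc]
    exact abs_le.1 h1
  refine Set.ncard_le_ncard_of_injOn (fun N : ℕ => (N : ℤ)) ?_ (fun a _ b _ h => by
    simpa using h) hfinZ
  rintro N ⟨h1, h2, h3⟩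
  have hN1 : (Y : ℝ) ≤ N := by exact_mod_cast h1
  have hN2 : (N : ℝ) ≤ 2 * Y := by exact_mod_cast h2
  refine ⟨?_, lt_of_le_of_lt ?_ h3⟩
  · have h4 : (N : ℝ) ≤ (X : ℝ) ^ 2 := by nlinarith
    have h5 : N ≤ X ^ 2 := by exact_mod_cast h4
    rw [abs_of_nonneg (Int.natCast_nonneg N)]
    exact_mod_cast h5
  · have hfin : (goodR A N Y ε).Finite := A.finite_toSet.subset fun p hp => hp.1
    have hsub : good A (N : ℤ) X ε ⊆ goodR A N Y ε := by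
      rintro p ⟨hpA, m, s, e1, e2, e3, e4, e5⟩
      have hp4 := (hA p hpA).2
      have hpN : (p : ℝ) ≤ N := by nlinarith
      have hpN' : p ≤ N := by exact_mod_cast hpN
      refine ⟨hpA, m, s, ?_, ?_, e3, e4, fun q hq hqs => le_trans ?_ (e5 q hq hqs)⟩
      · have : ((N : ℤ) - (p : ℤ)).natAbs = N - p := by omega
        rw [this] at e1
        omega
      · exact e2.trans (Real.rpow_le_rpow (by linarith) hXY hε.le)
      · have h6 : (Y : ℝ) ^ (1 / 16 : ℝ) = r ^ (1 / 8 : ℝ) := by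
          rw [hr, Real.sqrt_eq_rpow, ← Real.rpow_mul hY0]
          norm_num
        rw [h6]
        exact Real.rpow_le_rpow (by linarith) (by linarith) (by norm_num)
    exact_mod_cast Set.ncard_le_ncard hsub hfin

end Pool.Agent.W21.RV
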